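import Mathlib
import Pool.Agent.MP_08f4e9_nt.All

/-!
The reciprocals of the integers `n` that have a prime `p ≤ n` with `π (p n)` prime have a divergent
sum: the sum up to `N` is at least `c log log N`.
-/

namespace Pool.Agent.Results.MP_08f4e9_nt.ReciprocalSum

open Classical in
theorem result : ∃ c : ℝ, 0 < c ∧ ∃ N₀ : ℕ, ∀ N : ℕ, N₀ ≤ N →
    c * Real.log (Real.log N) ≤
      ∑ n ∈ (Finset.Icc 1 N).filter
        (fun n : ℕ => ∃ p : ℕ, p.Prime ∧ p ≤ n ∧ (Nat.primeCounting (p * n)).Prime), (1 : ℝ) / n :=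
  Pool.Agent.MP_08f4e9_nt.RD.main

end Pool.Agent.Results.MP_08f4e9_nt.ReciprocalSum
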